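import Pool.Agent.R73.RichBlocks

/-!
# Every 7 by 7 square extends to a rich plane (MP_0bf243_co, Q1, full answer: yes)

A finite binary word is rich if it has exactly `|w| + 1` distinct palindromic factors (the empty
word included). We prove that every two-dimensional binary word whose non-empty cells all lie in
a 7 by 7 block extends to a full plane all of whose rows and columns are rich.

Sketch. Every word `w` of length 7 has a two-sided prolongation `a^∞ w (¬a)^∞` which is rich.
Choose such a letter `a` for every row and every column of the block; this gives two words `x`,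
`u` of length 7. If `x` and `u` admit a common letter `a`, constant prolongations in all
directions give a rich plane. Otherwise (up to transposition) `x` only admits `0^∞ x 1^∞` and `u`
only admits `1^∞ u 0^∞`; there are 12 times 12 such pairs. For each of them a table, checked by
the kernel, shows that one row of the block (depending on the letters of one column) may be
given a non-constant tail of length 3 on both sides such that the four corners can be filled;
the resulting 13 by 13 block has only rows and columns with rich constant prolongations.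
-/

namespace Pool.Agent.Results.MP_0bf243_co.EverySevenSquare

open Pool.R73.Rich

/-- The horizontal word `w(i,j) w(i,j+1) ... w(i,j+n)`. -/
def horizontalWord (w : ℤ → ℤ → Bool) (i j : ℤ) (n : ℕ) : List Bool :=
  (List.range (n + 1)).map fun k : ℕ => w i (j + (k : ℤ))

/-- The vertical word `w(i,j) w(i+1,j) ... w(i+n,j)`. -/
def verticalWord (w : ℤ → ℤ → Bool) (i j : ℤ) (n : ℕ) : List Bool :=
  (List.range (n + 1)).map fun k : ℕ => w (i + (k : ℤ)) j

/-- A plane without empty cells is rich if all its finite horizontal and vertical words are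
rich. -/
def IsRichPlane (w : ℤ → ℤ → Bool) : Prop :=
  ∀ (i j : ℤ) (n : ℕ), IsRich (horizontalWord w i j n) ∧ IsRich (verticalWord w i j n)

/-- A two-dimensional binary word with empty cells (`none`) extends to a rich plane. -/
def ExtendsToRichPlane (w : ℤ → ℤ → Option Bool) : Prop :=
  ∃ w' : ℤ → ℤ → Bool, (∀ i j b, w i j = some b → w' i j = b) ∧ IsRichPlane w'

/-! ### The finite part -/

theorem case_two (M : ℕ → ℕ → Bool)
    (hx : allow true (enc fun i => phi (enc (M i))) = false)
    (hu : allow false (enc fun j => phi (enc fun r => M r j)) = false) :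
    ∃ D, Prolongs M D := by
  set x := enc fun i => phi (enc (M i)) with hxdef
  set u := enc fun j => phi (enc fun r => M r j) with hudef
  have hx128 : x < 128 := enc_lt _
  have hu128 : u < 128 := enc_lt _
  have hxA : x ∈ listA := by
    unfold listA
    rw [List.mem_filter]
    exact ⟨List.mem_range.2 hx128, by rw [hx]; rfl⟩
  have huB : u ∈ listB := by
    unfold listB
    rw [List.mem_filter]
    exact ⟨List.mem_range.2 hu128, by rw [hu]; rfl⟩
  obtain ⟨e, he, hex, heu⟩ := table_complete x hxA u huB
  have hchk := List.all_eq_true.1 table_ok e he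
  unfold checkE at hchk
  simp only [Bool.and_eq_true, List.all_eq_true, decide_eq_true_eq, hex, heu] at hchk
  obtain ⟨⟨⟨hj, hcert⟩, hG⟩, hc⟩ := hchk
  set j := e.1 / 16384 % 8 with hjdef
  -- the column `j`
  have h1 := hc (enc fun r => M r j) (List.mem_range.2 (enc_lt _))
  have h2 : phi (enc fun r => M r j) = u.testBit j := by
    rw [hudef, testBit_enc _ hj]
  rw [h2] at h1
  simp only [bne_self_eq_false, Bool.false_or, List.any_eq_true, List.mem_range] at h1
  obtain ⟨i, hi, h3⟩ := h1
  have hbit : (enc fun r => M r j).testBit i = (enc (M i)).testBit j := by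
    rw [testBit_enc _ hi, testBit_enc _ hj]
  have hincl : incl x i j ((enc (M i)).testBit j) e.2 = true := by
    have h4 := hG i (List.mem_range.2 hi)
    rw [hbit] at h3
    cases hb : (enc (M i)).testBit j
    · rw [hb] at h3
      have h5 := h4.1
      simp only [Bool.false_eq_true, ↓reduceIte] at h3
      rw [h3] at h5
      simpa using h5
    · rw [hb] at h3
      have h5 := h4.2
      simp only [↓reduceIte] at h3
      rw [h3] at h5
      simpa using h5
  have hphi : phi (enc (M i)) = x.testBit i := by rw [hxdef, testBit_enc _ hi]
  obtain ⟨e', he', hfi, htm⟩ := goodMask_spec i _ _ (incl_spec (enc_lt _) hj hincl hphi)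
  have h6 := hcert e' he'
  unfold certE at h6
  simp only [Bool.and_eq_true, decide_eq_true_eq] at h6
  obtain ⟨⟨h7, h8⟩, h9⟩ := h6
  rw [hfi] at h9
  have hty := typ_ok _ h8
  have hb := build M hx128 hu128 hty.1 h9
    (by
      intro r hr _
      rw [hxdef, testBit_enc _ hr]
      exact allow_phi (enc_lt _))
    (fun _ => hty.2 _ (enc_lt _) htm)
    (by
      intro r hr
      rw [hudef, testBit_enc _ hr]
      exact allow_phi (enc_lt _))
  exact ⟨_, G_inner M _ _ _ _ _ _ _ _ _, hb.1, hb.2⟩

theorem exists_prolongs (M : ℕ → ℕ → Bool) : ∃ D, Prolongs M D := by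
  have hx128 : (enc fun i => phi (enc (M i))) < 128 := enc_lt _
  have hu128 : (enc fun j => phi (enc fun r => M r j)) < 128 := enc_lt _
  by_cases hcommon : ∃ a, allow a (enc fun i => phi (enc (M i))) = true ∧
      allow a (enc fun j => phi (enc fun r => M r j)) = true
  · obtain ⟨a, h1, h2⟩ := hcommon
    have hb := build M hx128 hu128 (by norm_num) (certOK_const hx128 hu128 a h1 h2)
      (by
        intro r hr _
        rw [testBit_enc _ hr]
        exact allow_phi (enc_lt _))
      (fun h => absurd h (by norm_num))
      (by
        intro r hr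
        rw [testBit_enc _ hr]
        exact allow_phi (enc_lt _))
    exact ⟨_, G_inner M _ _ _ _ _ _ _ _ _, hb.1, hb.2⟩
  · have hx := allow_or _ hx128
    have hu := allow_or _ hu128
    push Not at hcommon
    cases hxf : allow false (enc fun i => phi (enc (M i)))
    · -- then `x` only allows `true`
      rw [hxf] at hx
      simp only [Bool.false_or] at hx
      have h1 := hcommon true hx
      have h1' : allow true (enc fun j => phi (enc fun r => M r j)) = false := by simpa using h1
      obtain ⟨D, hD⟩ := case_two (fun a b => M b a) h1' hxf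
      exact ⟨fun a b => D b a, fun i hi j hj => hD.1 j hj i hi, hD.2.2, hD.2.1⟩
    · have h1 := hcommon false hxf
      have h1' : allow false (enc fun j => phi (enc fun r => M r j)) = false := by simpa using h1
      rw [h1'] at hu
      simp only [Bool.false_or] at hu
      have h2 : allow true (enc fun i => phi (enc (M i))) = false := by
        by_contra hc
        exact hcommon true (by simpa using hc) hu
      exact case_two M h2 h1'

/-! ### The plane -/

/-- a segment of a two-sided infinite word -/
def seg (h : ℤ → Bool) (j : ℤ) (n : ℕ) : List Bool :=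
  (List.range n).map fun k : ℕ => h (j + (k : ℤ))

theorem seg_add (h : ℤ → Bool) (j : ℤ) (m n : ℕ) :
    seg h j (m + n) = seg h j m ++ seg h (j + m) n := by
  unfold seg
  rw [List.range_add, List.map_append, List.map_map]
  congr 1
  apply List.map_congr_left
  intro k _
  simp only [Function.comp_apply, Nat.cast_add]
  congr 1
  ring

/-- clamping a position -/
def cl (z : ℤ) : ℕ := (max 0 (min z 12)).toNat

theorem cl_lt (z : ℤ) : cl z < 13 := by unfold cl; omega

theorem seg_const (h : ℤ → Bool) (j : ℤ) (n : ℕ) (b : Bool)
    (hb : ∀ k : ℕ, k < n → h (j + (k : ℤ)) = b) : seg h j n = List.replicate n b := by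
  unfold seg
  rw [List.eq_replicate_iff]
  refine ⟨by simp, ?_⟩
  intro c hc
  obtain ⟨k, hk, rfl⟩ := List.mem_map.1 hc
  exact hb k (List.mem_range.1 hk)

theorem rich_seg {g : ℕ → Bool} (hg : Good g) (j : ℤ) (n : ℕ) :
    IsRich (seg (fun z => g (cl z)) j n) := by
  set k : ℕ := (-j).toNat with hk
  set a : ℕ := (j + k).toNat with ha
  have hak : (a : ℤ) = j + k := by omega
  have hbig := hg k (a + n)
  have e1 : seg (fun z => g (cl z)) (-(k : ℤ)) (k + 13 + (a + n)) =
      List.replicate k (g 0) ++ (List.range 13).map g ++ List.replicate (a + n) (g 12) := by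
    rw [seg_add, seg_add]
    congr 1
    · congr 1
      · apply seg_const
        intro t ht
        have : cl (-(k : ℤ) + (t : ℤ)) = 0 := by unfold cl; omega
        simp only [this]
      · unfold seg
        apply List.map_congr_left
        intro t ht
        have ht' := List.mem_range.1 ht
        have : cl (-(k : ℤ) + (k : ℤ) + (t : ℤ)) = t := by unfold cl; omega
        simp only [this]
    · apply seg_const
      intro t ht
      have : cl (-(k : ℤ) + ((k + 13 : ℕ) : ℤ) + (t : ℤ)) = 12 := by unfold cl; omega
      simp only [this]
  rw [← e1] at hbig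
  apply hbig.of_infix
  refine ⟨seg (fun z => g (cl z)) (-(k : ℤ)) a,
    seg (fun z => g (cl z)) (j + n) (k + 13), ?_⟩
  have e2 : k + 13 + (a + n) = (a + n) + (k + 13) := by omega
  have e3 : -(k : ℤ) + (a : ℤ) = j := by omega
  have e4 : -(k : ℤ) + ((a + n : ℕ) : ℤ) = j + n := by push_cast; omega
  rw [e2, seg_add _ _ (a + n) (k + 13), seg_add _ _ a n, e3, e4]

/-- **Full answer to Q1 of MP_0bf243_co.** Every two-dimensional binary word all of whose
non-empty cells lie in a 7 by 7 block extends to a rich plane. -/
theorem result (w : ℤ → ℤ → Option Bool) (i₀ j₀ : ℤ)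
    (hw : ∀ i j, w i j ≠ none → i₀ ≤ i ∧ i ≤ i₀ + 6 ∧ j₀ ≤ j ∧ j ≤ j₀ + 6) :
    ExtendsToRichPlane w := by
  obtain ⟨D, hD1, hD2, hD3⟩ :=
    exists_prolongs (fun a b => (w (i₀ + (a : ℤ)) (j₀ + (b : ℤ))).getD false)
  refine ⟨fun i j => D (cl (i - i₀ + 3)) (cl (j - j₀ + 3)), ?_, ?_⟩
  · intro i j b hb
    obtain ⟨h1, h2, h3, h4⟩ := hw i j (by rw [hb]; simp)
    have e1 : cl (i - i₀ + 3) = (i - i₀).toNat + 3 := by unfold cl; omega
    have e2 : cl (j - j₀ + 3) = (j - j₀).toNat + 3 := by unfold cl; omega
    simp only [e1, e2]
    rw [hD1 _ (by omega) _ (by omega)]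
    have e3 : i₀ + (((i - i₀).toNat : ℕ) : ℤ) = i := by omega
    have e4 : j₀ + (((j - j₀).toNat : ℕ) : ℤ) = j := by omega
    simp only [e3, e4, hb, Option.getD_some]
  · intro i j n
    constructor
    · have h := rich_seg (hD2 _ (cl_lt (i - i₀ + 3))) (j - j₀ + 3) (n + 1)
      have e : horizontalWord (fun i j => D (cl (i - i₀ + 3)) (cl (j - j₀ + 3))) i j n =
          seg (fun z => D (cl (i - i₀ + 3)) (cl z)) (j - j₀ + 3) (n + 1) := by
        unfold horizontalWord seg
        apply List.map_congr_left
        intro k _
        simp only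
        congr 2
        ring
      rw [e]
      exact h
    · have h := rich_seg (hD3 _ (cl_lt (j - j₀ + 3))) (i - i₀ + 3) (n + 1)
      have e : verticalWord (fun i j => D (cl (i - i₀ + 3)) (cl (j - j₀ + 3))) i j n =
          seg (fun z => D (cl z) (cl (j - j₀ + 3))) (i - i₀ + 3) (n + 1) := by
        unfold verticalWord seg
        apply List.map_congr_left
        intro k _
        simp only
        congr 2
        ring
      rw [e]
      exact h

end Pool.Agent.Results.MP_0bf243_co.EverySevenSquare
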